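import Pool.Agent.Helper853.WG.Fin
import Pool.Agent.Helper853.WG.Asm
import Pool.Agent.Helper853.WG.Data2
import Pool.Agent.Helper853.WG.S1
import Pool.Agent.Helper853.WG.X8

/-!
# Strict positivity of weak geodesics between Kähler metrics fails

The compact Kähler manifold is the elliptic curve `X = ℂ / ℤ[i]` with the flat Kähler form
`ω = dd^c |z|²`.  Functions on `X` are `ℤ[i]`-periodic functions on `ℂ`; `ω + dd^c φ` has the
(local) potential `|z|² + φ`, and `π^* ω + dd^c φ` on `X × A` has the potential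
`|z|² + φ(z, σ)` on `ℂ × A`.
-/

set_option autoImplicit false

open Complex Metric Set Real

namespace Pool.Agent.Results.MP_8d5978_gt.NotPositive

/-- the open annulus `A = {a < |σ| < b}` -/
def annulus (a b : ℝ) : Set ℂ := {σ | a < ‖σ‖ ∧ ‖σ‖ < b}

/-- the closed annulus -/
def closedAnnulus (a b : ℝ) : Set ℂ := {σ | a ≤ ‖σ‖ ∧ ‖σ‖ ≤ b}

/-- continuous plurisubharmonic functions on an open subset `Ω` of `ℂ × ℂ`: the function is
continuous on `Ω` and satisfies the sub-mean value inequality along every closed holomorphic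
disc `ζ ↦ (f ζ, g ζ)`, `|ζ| ≤ 1`, in `Ω`. -/
def PSHOn (Ω : Set (ℂ × ℂ)) (u : ℂ × ℂ → ℝ) : Prop :=
  ContinuousOn u Ω ∧
    ∀ f g : ℂ → ℂ, AnalyticOnNhd ℂ f (closedBall 0 1) → AnalyticOnNhd ℂ g (closedBall 0 1) →
      (∀ ζ ∈ closedBall (0:ℂ) 1, (f ζ, g ζ) ∈ Ω) →
      u (f 0, g 0) ≤ circleAverage (fun ζ => u (f ζ, g ζ)) 0 1

/-- `u` is maximal on `Ω` (for a continuous psh `u` this is `(dd^c u)² = 0`, Bedford-Taylor):
every psh `v` with `v ≤ u` off a compact subset of `Ω` satisfies `v ≤ u`. -/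
def MaximalOn (Ω : Set (ℂ × ℂ)) (u : ℂ × ℂ → ℝ) : Prop :=
  ∀ v : ℂ × ℂ → ℝ, PSHOn Ω v →
    (∃ K : Set (ℂ × ℂ), IsCompact K ∧ K ⊆ Ω ∧ ∀ p ∈ Ω \ K, v p ≤ u p) → ∀ p ∈ Ω, v p ≤ u p

/-- `φ` is a smooth function on `X = ℂ / ℤ[i]` and `ω + dd^c φ` is a Kähler form -/
structure IsKahlerPotential (φ : ℂ → ℝ) : Prop where
  smooth : ContDiff ℝ (⊤ : ℕ∞) φ
  periodic : ∀ (z : ℂ) (m n : ℤ), φ (z + (m + n * I)) = φ z
  positive : ∀ z : ℂ, 0 < Laplacian.laplacian (fun z : ℂ => ‖z‖ ^ 2 + φ z) z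

/-- `φ` (a function on `X × closed annulus`) is the weak geodesic joining `ω + dd^c φ₁` (on
`|σ| = a`) to `ω + dd^c φ₂` (on `|σ| = b`): it is continuous up to the boundary with the given
boundary values, `π^* ω + dd^c φ ≥ 0` and `(π^* ω + dd^c φ)² = 0` on `X × A`. -/
structure IsWeakGeodesic (a b : ℝ) (φ₁ φ₂ : ℂ → ℝ) (φ : ℂ → ℂ → ℝ) : Prop where
  periodic : ∀ z : ℂ, ∀ σ ∈ closedAnnulus a b, ∀ m n : ℤ, φ (z + (m + n * I)) σ = φ z σ
  cont : ContinuousOn (fun p : ℂ × ℂ => φ p.1 p.2) (univ ×ˢ closedAnnulus a b)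
  left : ∀ z σ : ℂ, ‖σ‖ = a → φ z σ = φ₁ z
  right : ∀ z σ : ℂ, ‖σ‖ = b → φ z σ = φ₂ z
  psh : PSHOn (univ ×ˢ annulus a b) (fun p => ‖p.1‖ ^ 2 + φ p.1 p.2)
  maximal : MaximalOn (univ ×ˢ annulus a b) (fun p => ‖p.1‖ ^ 2 + φ p.1 p.2)

/-- the current `ω + dd^c ψ` on `X` is strictly positive: `ω + dd^c ψ ≥ ε ω` for some `ε > 0`,
i.e. `|z|² + ψ - ε |z|²` is subharmonic (sub-mean value inequality on all circles). -/
def StrictlyPositive (ψ : ℂ → ℝ) : Prop :=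
  ∃ ε > 0, ∀ (z : ℂ) (r : ℝ), 0 < r →
    (‖z‖ ^ 2 + ψ z) - ε * ‖z‖ ^ 2 ≤
      circleAverage (fun w => (‖w‖ ^ 2 + ψ w) - ε * ‖w‖ ^ 2) z r

theorem toWG {a b : ℝ} {φ₁ φ₂ : ℂ → ℝ} {φ : ℂ → ℂ → ℝ} (h : IsWeakGeodesic a b φ₁ φ₂ φ) :
    WG.IsWeakGeodesic a b φ₁ φ₂ φ :=
  ⟨h.periodic, h.cont, h.left, h.right, h.psh, h.maximal⟩

theorem ofWG {a b : ℝ} {φ₁ φ₂ : ℂ → ℝ} {φ : ℂ → ℂ → ℝ} (h : WG.IsWeakGeodesic a b φ₁ φ₂ φ) :
    IsWeakGeodesic a b φ₁ φ₂ φ :=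
  ⟨h.periodic, h.cont, h.left, h.right, h.psh, h.maximal⟩

theorem pot : WG.Pot WG.phi1 where
  cont := WG.phi1_smooth.continuous
  periodic := WG.phi1_periodic
  even := WG.phi1_even
  bdd := WG.phi1_abs
  semi := WG.phi1_semiconcave
  lip := WG.phi1_lip
  sub := WG.phi1_discSub
  upper := WG.phi1_upper
  lower := WG.phi1_lower

theorem kahler1 : IsKahlerPotential WG.phi1 :=
  ⟨WG.phi1_smooth, WG.phi1_periodic, WG.phi1_laplacian⟩

theorem unique {a b : ℝ} (ha : 0 < a) (hab : a < b) {φ₁ φ₂ : ℂ → ℝ} {φ φ' : ℂ → ℂ → ℝ}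
    (h : WG.IsWeakGeodesic a b φ₁ φ₂ φ) (h' : WG.IsWeakGeodesic a b φ₁ φ₂ φ') :
    ∀ z : ℂ, ∀ σ ∈ closedAnnulus a b, φ z σ ≤ φ' z σ := by
  intro z σ hσ
  obtain ⟨M, hM⟩ := WG.geo_bdd ha hab h
  obtain ⟨M', hM'⟩ := WG.geo_bdd ha hab h'
  have hc : ContinuousOn (fun p : ℂ × ℂ => ‖p.1‖ ^ 2 + φ p.1 p.2) (univ ×ˢ WG.cann a b) :=
    (by fun_prop : Continuous fun p : ℂ × ℂ => ‖p.1‖ ^ 2).continuousOn.add h.cont
  have hc' : ContinuousOn (fun p : ℂ × ℂ => ‖p.1‖ ^ 2 + φ' p.1 p.2) (univ ×ˢ WG.cann a b) :=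
    (by fun_prop : Continuous fun p : ℂ × ℂ => ‖p.1‖ ^ 2).continuousOn.add h'.cont
  have := WG.comparison ha hab hc' hc h.psh h'.maximal (M := M')
    (fun p hp => by have := abs_le.1 (hM' p.1 p.2 hp.2); linarith [this.1]) (N := M)
    (fun p hp => by have := abs_le.1 (hM p.1 p.2 hp.2); linarith [this.2])
    (fun z σ hσ => by
      rcases hσ with hσ | hσ
      · simp only [h.left z σ hσ, h'.left z σ hσ, le_refl]
      · simp only [h.right z σ hσ, h'.right z σ hσ, le_refl]) (z, σ) ⟨mem_univ _, hσ⟩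
  simp only at this
  linarith

/-- **Main theorem.** There are Kähler potentials `φ₁, φ₂` on the elliptic curve `ℂ / ℤ[i]` such
that for every annulus the weak geodesic joining them exists, is unique, and at every point `σ`
of the middle circle `|σ|² = a b` its slice is not strictly positive. -/
theorem result :
    ∃ φ₁ φ₂ : ℂ → ℝ, IsKahlerPotential φ₁ ∧ IsKahlerPotential φ₂ ∧
      ∀ a b : ℝ, 0 < a → a < b →
        (∃ φ, IsWeakGeodesic a b φ₁ φ₂ φ) ∧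
        (∀ φ φ', IsWeakGeodesic a b φ₁ φ₂ φ → IsWeakGeodesic a b φ₁ φ₂ φ' →
          ∀ z : ℂ, ∀ σ ∈ closedAnnulus a b, φ z σ = φ' z σ) ∧
        (∀ φ, IsWeakGeodesic a b φ₁ φ₂ φ →
          ∀ σ : ℂ, ‖σ‖ ^ 2 = a * b → ¬ StrictlyPositive (fun z => φ z σ)) := by
  refine ⟨WG.phi1, fun z => WG.phi1 (I * z), kahler1, ?_, fun a b ha hab => ⟨?_, ?_, ?_⟩⟩
  · exact ⟨WG.phi2_smooth, WG.phi2_periodic, WG.phi2_laplacian⟩
  · obtain ⟨φ, hφ⟩ := WG.exists_geodesic ha hab pot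
    exact ⟨φ, ofWG hφ⟩
  · intro φ φ' h h' z σ hσ
    exact le_antisymm (unique ha hab (toWG h) (toWG h') z σ hσ)
      (unique ha hab (toWG h') (toWG h) z σ hσ)
  · intro φ h σ hσ hpos
    have hd := WG.geo_data ha hab pot (toWG h)
    apply WG.not_strictlyPositive hd
    obtain ⟨ε, hε, hpos⟩ := hpos
    have hb : 0 < b := ha.trans hab
    have hab' : 0 < a * b := by positivity
    have hn : ‖σ‖ = Real.sqrt (a * b) := by
      rw [← hσ, Real.sqrt_sq (norm_nonneg _)]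
    have hσ0 : 0 < ‖σ‖ := by rw [hn]; exact Real.sqrt_pos.2 hab'
    have hmid : a * Real.exp (Real.log (b / a) * max 0 (min 1 (1 / 2))) = ‖σ‖ := by
      have e1 : max (0:ℝ) (min 1 (1 / 2)) = 1 / 2 := by norm_num
      rw [e1, hn]
      have e2 : Real.exp (Real.log (b / a) * (1 / 2)) = Real.sqrt (b / a) := by
        rw [Real.sqrt_eq_rpow, Real.rpow_def_of_pos (by positivity)]
      rw [e2, ← Real.sqrt_sq ha.le, ← Real.sqrt_mul (sq_nonneg a), Real.sqrt_sq ha.le]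
      congr 1
      field_simp
    have hcann : ((‖σ‖ : ℝ) : ℂ) ∈ WG.cann a b := by
      have h1 : a ≤ ‖σ‖ := by rw [hn]; apply Real.le_sqrt_of_sq_le; nlinarith
      have h2 : ‖σ‖ ≤ b := by rw [hn]; apply Real.sqrt_le_iff.2 ⟨hb.le, by nlinarith⟩
      constructor <;> simpa using by assumption
    have hfun : (fun z => WG.toU a b φ z (1 / 2)) = fun z => ‖z‖ ^ 2 + φ z σ := by
      funext z
      unfold WG.toU
      rw [hmid]
      have hσne : (‖σ‖ : ℂ) ≠ 0 := by exact_mod_cast hσ0.ne'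
      have hrot := WG.geo_rot ha hab (toWG h) (c := σ / (‖σ‖ : ℂ))
        (by rw [norm_div]; simp [hσ0.ne']) z (‖σ‖ : ℂ) hcann
      rw [div_mul_cancel₀ _ hσne] at hrot
      rw [hrot]
    rw [hfun]
    exact ⟨ε, hε, hpos⟩

end Pool.Agent.Results.MP_8d5978_gt.NotPositive
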